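import Mathlib
import Pool.Agent.R113.PercG

/-!
# MP_56182f_pr, Q1: three-terminal partition probabilities in bond percolation

For every finite simple graph, all edge probabilities and all distinct vertices `a, b, c`: if
`P(ab|c)` and `P(ac|b)` are both less than `ε ^ 6 / 1000`, then `P(abc) < ε` or `P(a|b|c) < ε`.
Hence Q1 is true.  The proof uses the inequality
`(P(abc) - P(ac) P(bc))^3 ≤ 54 P(ab|c)` of `Pool.Agent.R113`.
-/

set_option autoImplicit false

open Finset

namespace Pool.Agent.Results.MP_56182f_pr.ThreeTerminal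

universe u

/-- a configuration is the finite set `ω` of open edges; `x` and `y` are connected if they lie in
one connected component of the open subgraph -/
def Conn {V : Type u} (ω : Finset (Sym2 V)) (x y : V) : Prop :=
  (SimpleGraph.fromEdgeSet (ω : Set (Sym2 V))).Reachable x y

open Classical in
/-- the probability of the event `A` in Bernoulli bond percolation on the finite graph `G`: each
edge `e` is open with probability `p e`, independently (sum over all sets `ω` of edges of `G` in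
`A` of the product of `p e` over the open edges and of `1 - p e` over the closed edges) -/
noncomputable def prob {V : Type u} [Finite V] (G : SimpleGraph V) (p : Sym2 V → ℝ)
    (A : Finset (Sym2 V) → Prop) : ℝ :=
  ∑ ω ∈ (Set.toFinite G.edgeSet).toFinset.powerset,
    if A ω then (∏ e ∈ ω, p e) * ∏ e ∈ (Set.toFinite G.edgeSet).toFinset \ ω, (1 - p e) else 0

/-- `P(xyz)`: the three vertices lie in one cluster -/
noncomputable def PAll {V : Type u} [Finite V] (G : SimpleGraph V) (p : Sym2 V → ℝ)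
    (x y z : V) : ℝ := prob G p (fun ω => Conn ω x y ∧ Conn ω x z ∧ Conn ω y z)

/-- `P(xy|z)`: `x` and `y` lie in one cluster and `z` lies in a different one -/
noncomputable def PPair {V : Type u} [Finite V] (G : SimpleGraph V) (p : Sym2 V → ℝ)
    (x y z : V) : ℝ := prob G p (fun ω => Conn ω x y ∧ ¬ Conn ω x z ∧ ¬ Conn ω y z)

/-- `P(x|y|z)`: the three vertices lie in three different clusters -/
noncomputable def PNone {V : Type u} [Finite V] (G : SimpleGraph V) (p : Sym2 V → ℝ)
    (x y z : V) : ℝ := prob G p (fun ω => ¬ Conn ω x y ∧ ¬ Conn ω x z ∧ ¬ Conn ω y z)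

section aux

variable {V : Type u} [Finite V] {G : SimpleGraph V} {p : Sym2 V → ℝ}

theorem prob_congr {A B : Finset (Sym2 V) → Prop} (h : ∀ ω, A ω ↔ B ω) :
    prob G p A = prob G p B := by
  have : A = B := funext fun ω => propext (h ω)
  rw [this]

theorem prob_nonneg (hp : ∀ e ∈ G.edgeSet, 0 ≤ p e ∧ p e ≤ 1) (A : Finset (Sym2 V) → Prop) :
    0 ≤ prob G p A := by
  classical
  unfold prob
  refine Finset.sum_nonneg fun ω hω => ?_
  rw [Finset.mem_powerset] at hω
  split_ifs
  · refine mul_nonneg (Finset.prod_nonneg fun e he => ?_) (Finset.prod_nonneg fun e he => ?_)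
    · exact (hp e ((Set.Finite.mem_toFinset _).1 (hω he))).1
    · have := (hp e ((Set.Finite.mem_toFinset _).1 (Finset.mem_sdiff.1 he).1)).2
      linarith
  · exact le_rfl

theorem prob_split (A B : Finset (Sym2 V) → Prop) :
    prob G p A = prob G p (fun ω => A ω ∧ B ω) + prob G p (fun ω => A ω ∧ ¬ B ω) := by
  classical
  unfold prob
  rw [← Finset.sum_add_distrib]
  refine Finset.sum_congr rfl fun ω _ => ?_
  by_cases h1 : A ω <;> by_cases h2 : B ω <;> simp [h1, h2]

theorem prob_true : prob G p (fun _ => True) = 1 := by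
  classical
  unfold prob
  simp only [if_true]
  rw [← Finset.prod_add]
  exact Finset.prod_eq_one fun e _ => by ring

end aux

/-- **Q1, affirmative answer**, with `δ = ε ^ 6 / 1000`. -/
theorem result : ∀ ε : ℝ, 0 < ε → ∃ δ : ℝ, 0 < δ ∧ δ = ε ^ 6 / 1000 ∧
    ∀ (V : Type u) [Finite V] (G : SimpleGraph V) (p : Sym2 V → ℝ),
      (∀ e ∈ G.edgeSet, 0 ≤ p e ∧ p e ≤ 1) → ∀ a b c : V, a ≠ b → a ≠ c → b ≠ c →
        PPair G p a b c < δ → PPair G p a c b < δ →
          PAll G p a b c < ε ∨ PNone G p a b c < ε := by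
  intro ε hε
  refine ⟨ε ^ 6 / 1000, by positivity, rfl, ?_⟩
  intro V _ G p hp a b c _ _ _ hx hy
  haveI := Fintype.ofFinite V
  -- abbreviations
  have hsymm : ∀ (ω : Finset (Sym2 V)) (x y : V), Conn ω x y → Conn ω y x :=
    fun ω x y h => SimpleGraph.Reachable.symm h
  have htrans : ∀ (ω : Finset (Sym2 V)) (x y z : V), Conn ω x y → Conn ω y z → Conn ω x z :=
    fun ω x y z h1 h2 => SimpleGraph.Reachable.trans h1 h2
  have hmain : (prob G p (fun ω => Conn ω a b ∧ Conn ω a c)
      - prob G p (fun ω => Conn ω a c) * prob G p (fun ω => Conn ω b c)) ^ 3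
      ≤ 54 * prob G p (fun ω => Conn ω a b ∧ ¬ Conn ω a c) :=
    Pool.Agent.R113.PercG.main (Set.toFinite G.edgeSet).toFinset p
      (fun e he => hp e ((Set.Finite.mem_toFinset _).1 he)) a b c
  have e1 : prob G p (fun ω => Conn ω a b ∧ Conn ω a c) = PAll G p a b c := by
    refine prob_congr fun ω => ⟨fun h => ⟨h.1, h.2, ?_⟩, fun h => ⟨h.1, h.2.1⟩⟩
    exact htrans ω b a c (hsymm ω a b h.1) h.2
  have e2 : prob G p (fun ω => Conn ω a b ∧ ¬ Conn ω a c) = PPair G p a b c := by
    refine prob_congr fun ω => ⟨fun h => ⟨h.1, h.2, fun h' => h.2 ?_⟩, fun h => ⟨h.1, h.2.1⟩⟩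
    exact htrans ω a b c h.1 h'
  have e3 : prob G p (fun ω => Conn ω a c) = PAll G p a b c + PPair G p a c b := by
    rw [prob_split _ (fun ω => Conn ω a b)]
    congr 1
    · refine prob_congr fun ω => ⟨fun h => ⟨h.2, h.1, ?_⟩, fun h => ⟨h.2.1, h.1⟩⟩
      exact htrans ω b a c (hsymm ω a b h.2) h.1
    · refine prob_congr fun ω => ⟨fun h => ⟨h.1, h.2, fun h' => h.2 ?_⟩, fun h => ⟨h.1, h.2.1⟩⟩
      exact htrans ω a c b h.1 h'
  have e4 : prob G p (fun ω => Conn ω b c) ≤ 1 - PNone G p a b c := by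
    have h1 : (1 : ℝ) = prob G p (fun ω => Conn ω b c) + prob G p (fun ω => ¬ Conn ω b c) := by
      have := prob_split (G := G) (p := p) (fun _ => True) (fun ω => Conn ω b c)
      rw [prob_true] at this
      simpa using this
    have h2 := prob_split (G := G) (p := p) (fun ω => ¬ Conn ω b c)
      (fun ω => ¬ Conn ω a b ∧ ¬ Conn ω a c)
    have h3 : prob G p (fun ω => ¬ Conn ω b c ∧ (¬ Conn ω a b ∧ ¬ Conn ω a c)) =
        PNone G p a b c := prob_congr fun ω => ⟨fun h => ⟨h.2.1, h.2.2, h.1⟩,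
          fun h => ⟨h.2.2, h.1, h.2.1⟩⟩
    have h4 := prob_nonneg hp (fun ω => ¬ Conn ω b c ∧ ¬ (¬ Conn ω a b ∧ ¬ Conn ω a c))
    linarith
  rw [e1, e2, e3] at hmain
  set A := PAll G p a b c with hA
  set S := PNone G p a b c with hS
  set x := PPair G p a b c with hxd
  set y := PPair G p a c b with hyd
  set B := prob G p (fun ω => Conn ω b c) with hB
  have hA0 : 0 ≤ A := prob_nonneg hp _
  have hS0 : 0 ≤ S := prob_nonneg hp _
  have hx0 : 0 ≤ x := prob_nonneg hp _
  have hy0 : 0 ≤ y := prob_nonneg hp _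
  have hB0 : 0 ≤ B := prob_nonneg hp _
  by_contra hcon
  push Not at hcon
  obtain ⟨hA1, hS1⟩ := hcon
  -- `ε ≤ 1`
  have hε1 : ε ≤ 1 := by linarith
  have h6 : ε ^ 6 ≤ ε ^ 2 := pow_le_pow_of_le_one hε.le hε1 (by norm_num)
  have hAS : ε ^ 2 ≤ A * S := by
    have := mul_le_mul hA1 hS1 hε.le hA0
    calc ε ^ 2 = ε * ε := by ring
      _ ≤ A * S := this
  have hlow : 999 / 1000 * ε ^ 2 ≤ A - (A + y) * B := by
    have h7 : (A + y) * B ≤ A * (1 - S) + y := by
      have h8 : A * B ≤ A * (1 - S) := mul_le_mul_of_nonneg_left e4 hA0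
      have h9 : y * B ≤ y * 1 := mul_le_mul_of_nonneg_left (by linarith) hy0
      calc (A + y) * B = A * B + y * B := by ring
        _ ≤ A * (1 - S) + y := by linarith
    nlinarith
  have hcube : (999 / 1000 * ε ^ 2) ^ 3 ≤ (A - (A + y) * B) ^ 3 :=
    pow_le_pow_left₀ (by positivity) hlow 3
  have h10 : (999 / 1000 * ε ^ 2) ^ 3 = (999 / 1000) ^ 3 * ε ^ 6 := by ring
  have h11 : 0 < ε ^ 6 := by positivity
  rw [h10] at hcube
  nlinarith

end Pool.Agent.Results.MP_56182f_pr.ThreeTerminal
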